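import Mathlib

namespace Pool.Agent.Results.MP_968ae6_lc.Union
open Computability

/-- A graph database over `σ`: finitely many nodes and labelled edges. -/
structure GDB (σ : Type) where
  n : ℕ
  E : Fin n → σ → Fin n → Prop

/-- Semipaths with their labels; `(a, true)` is the letter `a` and `(a, false)` is `a⁻`. -/
inductive SP {σ : Type} (G : GDB σ) : Fin G.n → List (σ × Bool) → Fin G.n → Prop
  | nil (u : Fin G.n) : SP G u [] u
  | fwd {u v t : Fin G.n} {a : σ} {w : List (σ × Bool)} :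
      G.E u a v → SP G v w t → SP G u ((a, true) :: w) t
  | bwd {u v t : Fin G.n} {a : σ} {w : List (σ × Bool)} :
      G.E v a u → SP G v w t → SP G u ((a, false) :: w) t

/-- A C2RPQ with `k` free positions: variables `Fin nv`, free tuple `free`, atoms `(u, R, v)`. -/
structure C2 (σ : Type) (k : ℕ) where
  nv : ℕ
  free : Fin k → Fin nv
  atoms : List (Fin nv × RegularExpression (σ × Bool) × Fin nv)

/-- The answers `Q(G)`. -/
def C2.ans {σ : Type} {k : ℕ} (Q : C2 σ k) (G : GDB σ) : Set (Fin k → Fin G.n) :=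
  {x | ∃ h : Fin Q.nv → Fin G.n, (∀ i, h (Q.free i) = x i) ∧
    ∀ t ∈ Q.atoms, ∃ w ∈ t.2.1.matches', SP G (h t.1) w (h t.2.2)}

/-- The undirected graph on the variables (parallel atoms merged, loops ignored) is a forest. -/
def C2.Acyclic {σ : Type} {k : ℕ} (Q : C2 σ k) : Prop :=
  (SimpleGraph.fromRel (fun u v : Fin Q.nv => ∃ R, (u, R, v) ∈ Q.atoms)).IsAcyclic

section
variable {σ : Type} (a : σ)

def wt : List (σ × Bool) → Fin 3
  | [] => 0
  | l :: w => (if l.2 then 1 else 2) + wt w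

lemma wt_append (w w' : List (σ × Bool)) : wt (w ++ w') = wt w + wt w' := by
  induction w with
  | nil => simp [wt]
  | cons l w ih => simp [wt, ih, add_assoc]

def Cl (r : Fin 3) : Language (σ × Bool) := {w | (∀ l ∈ w, l.1 = a) ∧ wt w = r}

lemma Cl_mul (r s : Fin 3) : Cl a r * Cl a s ≤ Cl a (r + s) := by
  intro w hw
  obtain ⟨x, hx, y, hy, rfl⟩ := Language.mem_mul.1 hw
  refine ⟨fun l hl => ?_, ?_⟩
  · rcases List.mem_append.1 hl with h | h
    · exact hx.1 l h
    · exact hy.1 l h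
  · rw [wt_append, hx.2, hy.2]

lemma one_le_Cl : 1 ≤ Cl a 0 := by
  intro w hw
  have hw' : w = [] := (Language.mem_one w).1 hw
  subst hw'
  exact ⟨by simp, rfl⟩

lemma mul_le {A B : Language (σ × Bool)} {r s t : Fin 3} (hA : A ≤ Cl a r) (hB : B ≤ Cl a s)
    (h : r + s = t) : A * B ≤ Cl a t :=
  h ▸ le_trans (mul_le_mul' hA hB) (Cl_mul a r s)

lemma star_le {A : Language (σ × Bool)} (hA : A ≤ Cl a 0) : A∗ ≤ Cl a 0 :=
  kstar_le_of_mul_le_left (one_le_Cl a) (mul_le a le_rfl hA rfl)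

def p : RegularExpression (σ × Bool) := RegularExpression.char (a, true)
def q : RegularExpression (σ × Bool) := RegularExpression.char (a, false)
def E : RegularExpression (σ × Bool) := (p a * q a).star * (q a + p a * p a)
def M0 : RegularExpression (σ × Bool) := (p a * E a + q a * p a + q a * (q a * E a)).star
def M1 : RegularExpression (σ × Bool) := E a * M0 a
def M2 : RegularExpression (σ × Bool) := (p a + q a * E a) * M0 a
def L : Fin 3 → RegularExpression (σ × Bool) := ![M0 a, M2 a, M1 a]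

lemma p_le : (p a).matches' ≤ Cl a 1 := by
  intro w hw
  have : w = [(a, true)] := hw
  subst this
  exact ⟨by simp, rfl⟩

lemma q_le : (q a).matches' ≤ Cl a 2 := by
  intro w hw
  have : w = [(a, false)] := hw
  subst this
  exact ⟨by simp, rfl⟩

lemma E_le : (E a).matches' ≤ Cl a 2 := by
  simp only [E, RegularExpression.matches'_mul, RegularExpression.matches'_add,
    RegularExpression.matches'_star]
  exact mul_le a (star_le a (mul_le a (p_le a) (q_le a) rfl))
    (add_le (q_le a) (mul_le a (p_le a) (p_le a) rfl)) rfl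

lemma M0_le : (M0 a).matches' ≤ Cl a 0 := by
  simp only [M0, RegularExpression.matches'_mul, RegularExpression.matches'_add,
    RegularExpression.matches'_star]
  exact star_le a (add_le (add_le (mul_le a (p_le a) (E_le a) rfl) (mul_le a (q_le a) (p_le a) rfl))
    (mul_le a (q_le a) (mul_le a (q_le a) (E_le a) (t := 1) rfl) rfl))

lemma L_le (r : Fin 3) : (L a r).matches' ≤ Cl a r := by
  fin_cases r
  · exact M0_le a
  · show (M2 a).matches' ≤ Cl a 1
    simp only [M2, RegularExpression.matches'_mul, RegularExpression.matches'_add]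
    exact mul_le a (add_le (p_le a) (mul_le a (q_le a) (E_le a) rfl)) (M0_le a) rfl
  · show (M1 a).matches' ≤ Cl a 2
    simp only [M1, RegularExpression.matches'_mul]
    exact mul_le a (E_le a) (M0_le a) rfl

lemma alg {K : Type} [KleeneAlgebra K] (P Q Ee A0 : K) (hE : Ee = (P * Q)∗ * (Q + P * P))
    (h0 : A0 = (P * Ee + Q * P + Q * (Q * Ee))∗) :
    P * A0 ≤ (P + Q * Ee) * A0 ∧ P * ((P + Q * Ee) * A0) ≤ Ee * A0 ∧ P * (Ee * A0) ≤ A0 ∧
    Q * A0 ≤ Ee * A0 ∧ Q * ((P + Q * Ee) * A0) ≤ A0 ∧ Q * (Ee * A0) ≤ (P + Q * Ee) * A0 := by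
  have e1 : Q + P * P ≤ Ee := by
    rw [hE]; exact le_mul_of_one_le_left' one_le_kstar
  have e2 : P * Q * Ee ≤ Ee := by
    rw [hE, ← mul_assoc]; exact mul_le_mul' mul_kstar_le_kstar le_rfl
  have e3 : (P * Ee + Q * P + Q * (Q * Ee)) * A0 ≤ A0 := by
    rw [h0]; exact mul_kstar_le_kstar
  refine ⟨mul_le_mul' le_self_add le_rfl, ?_, ?_, ?_, ?_, ?_⟩
  · rw [← mul_assoc]
    refine mul_le_mul' ?_ le_rfl
    rw [mul_add, ← mul_assoc]
    exact add_le (le_trans le_add_self e1) e2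
  · rw [← mul_assoc]
    exact le_trans (mul_le_mul' (le_trans le_self_add le_self_add) le_rfl) e3
  · exact mul_le_mul' (le_trans le_self_add e1) le_rfl
  · rw [← mul_assoc]
    refine le_trans (mul_le_mul' ?_ le_rfl) e3
    rw [mul_add]
    exact add_le (le_trans le_add_self le_self_add) le_add_self
  · rw [← mul_assoc]
    exact mul_le_mul' le_add_self le_rfl

lemma step (r : Fin 3) : (p a).matches' * (L a r).matches' ≤ (L a (1 + r)).matches' ∧
    (q a).matches' * (L a r).matches' ≤ (L a (2 + r)).matches' := by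
  obtain ⟨h1, h2, h3, h4, h5, h6⟩ := alg (p a).matches' (q a).matches' (E a).matches'
    (M0 a).matches' rfl rfl
  fin_cases r
  · exact ⟨h1, h4⟩
  · exact ⟨h2, h5⟩
  · exact ⟨h3, h6⟩

lemma mem_L (w : List (σ × Bool)) (hw : ∀ l ∈ w, l.1 = a) : w ∈ (L a (wt w)).matches' := by
  induction w with
  | nil =>
    show [] ∈ ((p a * E a + q a * p a + q a * (q a * E a)).matches')∗
    exact Language.nil_mem_kstar _
  | cons l w ih =>
    have h := ih fun l' hl' => hw l' (List.mem_cons_of_mem _ hl')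
    obtain ⟨b, s⟩ := l
    have hb : b = a := hw (b, s) (List.mem_cons_self)
    subst hb
    cases s
    · exact (step b (wt w)).2 (Language.mem_mul.2 ⟨[(b, false)], rfl, w, h, rfl⟩)
    · exact (step b (wt w)).1 (Language.mem_mul.2 ⟨[(b, true)], rfl, w, h, rfl⟩)

lemma mem_L_iff (r : Fin 3) (w : List (σ × Bool)) : w ∈ (L a r).matches' ↔ w ∈ Cl a r :=
  ⟨fun h => L_le a r h, fun h => h.2 ▸ mem_L a w h.1⟩

/-- `u` and `v` are joined by an `a`-semipath of weight `r`. -/
def J (G : GDB σ) (r : Fin 3) (u v : Fin G.n) : Prop := ∃ w ∈ Cl a r, SP G u w v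

lemma SP_append {G : GDB σ} {u v t : Fin G.n} {w w' : List (σ × Bool)} (h : SP G u w v)
    (h' : SP G v w' t) : SP G u (w ++ w') t := by
  induction h with
  | nil => exact h'
  | fwd e _ ih => exact SP.fwd e (ih h')
  | bwd e _ ih => exact SP.bwd e (ih h')

lemma J_trans {G : GDB σ} {r s : Fin 3} {u v t : Fin G.n} (h : J a G r u v) (h' : J a G s v t) :
    J a G (r + s) u t := by
  obtain ⟨w, hw, h⟩ := h
  obtain ⟨w', hw', h'⟩ := h'
  exact ⟨w ++ w', Cl_mul a r s (Language.mem_mul.2 ⟨w, hw, w', hw', rfl⟩), SP_append h h'⟩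

lemma J_symm {G : GDB σ} {r : Fin 3} {u v : Fin G.n} (h : J a G r u v) : J a G (-r) v u := by
  obtain ⟨w, ⟨hw, rfl⟩, h⟩ := h
  induction h with
  | nil u => exact ⟨[], ⟨by simp, by simp [wt]⟩, SP.nil u⟩
  | @fwd u v t b w e _ ih =>
    have hb : b = a := hw (b, true) List.mem_cons_self
    subst hb
    have h1 := J_trans b (ih fun l hl => hw l (List.mem_cons_of_mem _ hl))
      (⟨[(b, false)], q_le b rfl, SP.bwd e (SP.nil _)⟩ : J b G 2 v u)
    have e1 : -wt ((b, true) :: w) = -wt w + 2 := by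
      simp only [wt, if_true]
      generalize wt w = x
      revert x; decide
    rw [e1]; exact h1
  | @bwd u v t b w e _ ih =>
    have hb : b = a := hw (b, false) List.mem_cons_self
    subst hb
    have h1 := J_trans b (ih fun l hl => hw l (List.mem_cons_of_mem _ hl))
      (⟨[(b, true)], p_le b rfl, SP.fwd e (SP.nil _)⟩ : J b G 1 v u)
    have e1 : -wt ((b, false) :: w) = -wt w + 1 := by
      simp only [wt, Bool.false_eq_true, if_false]
      generalize wt w = x
      revert x; decide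
    rw [e1]; exact h1

def N : RegularExpression (σ × Bool) := L a 1 + L a 2

lemma atomL (G : GDB σ) (r : Fin 3) (u v : Fin G.n) :
    (∃ w ∈ (L a r).matches', SP G u w v) ↔ J a G r u v := by
  simp only [J, mem_L_iff]

lemma atomN (G : GDB σ) (u v : Fin G.n) :
    (∃ w ∈ (N a).matches', SP G u w v) ↔ ∃ r, r ≠ 0 ∧ J a G r u v := by
  simp only [N, RegularExpression.matches'_add, Language.mem_add, mem_L_iff]
  constructor
  · rintro ⟨w, h | h, hs⟩
    · exact ⟨1, by decide, w, h, hs⟩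
    · exact ⟨2, by decide, w, h, hs⟩
  · rintro ⟨r, hr, w, h, hs⟩
    have : r = 1 ∨ r = 2 := by clear h; revert r; decide
    rcases this with rfl | rfl
    · exact ⟨w, Or.inl h, hs⟩
    · exact ⟨w, Or.inr h, hs⟩

abbrev Q0 : C2 σ 3 := ⟨3, id, [(0, N a, 1), (1, N a, 2), (2, N a, 0)]⟩

abbrev P0 (s : Fin 3 × Fin 3 × Fin 3) : C2 σ 3 :=
  ⟨3, id, [(0, L a s.1, 1), (1, L a s.2.1, 2), (0, L a (s.1 + s.2.1 + s.2.2), 0)]⟩

lemma Q0_ans (G : GDB σ) (x : Fin 3 → Fin G.n) : x ∈ (Q0 a).ans G ↔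
    (∃ r, r ≠ 0 ∧ J a G r (x 0) (x 1)) ∧ (∃ r, r ≠ 0 ∧ J a G r (x 1) (x 2)) ∧
    (∃ r, r ≠ 0 ∧ J a G r (x 2) (x 0)) := by
  simp only [← atomN]
  constructor
  · rintro ⟨h, hx, hh⟩
    have : h = x := funext hx
    subst this
    exact ⟨hh _ List.mem_cons_self, hh _ (List.mem_cons_of_mem _ List.mem_cons_self),
      hh _ (List.mem_cons_of_mem _ (List.mem_cons_of_mem _ List.mem_cons_self))⟩
  · rintro ⟨h1, h2, h3⟩
    refine ⟨x, fun _ => rfl, fun t ht => ?_⟩
    simp only [List.mem_cons, List.not_mem_nil, or_false] at ht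
    rcases ht with rfl | rfl | rfl
    exacts [h1, h2, h3]

lemma P0_ans (s : Fin 3 × Fin 3 × Fin 3) (G : GDB σ) (x : Fin 3 → Fin G.n) :
    x ∈ (P0 a s).ans G ↔ J a G s.1 (x 0) (x 1) ∧ J a G s.2.1 (x 1) (x 2) ∧
      J a G (s.1 + s.2.1 + s.2.2) (x 0) (x 0) := by
  simp only [← atomL]
  constructor
  · rintro ⟨h, hx, hh⟩
    have : h = x := funext hx
    subst this
    exact ⟨hh _ List.mem_cons_self, hh _ (List.mem_cons_of_mem _ List.mem_cons_self),
      hh _ (List.mem_cons_of_mem _ (List.mem_cons_of_mem _ List.mem_cons_self))⟩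
  · rintro ⟨h1, h2, h3⟩
    refine ⟨x, fun _ => rfl, fun t ht => ?_⟩
    simp only [List.mem_cons, List.not_mem_nil, or_false] at ht
    rcases ht with rfl | rfl | rfl
    exacts [h1, h2, h3]

lemma acyc3 (H : SimpleGraph (Fin 3)) (h : ¬ H.Adj 0 2) : H.IsAcyclic := by
  have key : ∀ v : Fin 3, v ≠ 1 → ∀ c : H.Walk v v, ¬ c.IsCycle := by
    intro v hv c hc
    have h1 := hc.snd_ne_penultimate
    have h2 : H.Adj v c.snd := c.adj_snd hc.not_nil
    have h3 : H.Adj c.penultimate v := c.adj_penultimate hc.not_nil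
    have hn : ∀ u, H.Adj v u → u = 1 := by
      intro u hu
      have hne := hu.ne
      by_contra hu1
      have : (v = 0 ∧ u = 2) ∨ (v = 2 ∧ u = 0) := by
        revert hv hne hu1; generalize v = v'; generalize u = u'; revert v' u'; decide
      rcases this with ⟨rfl, rfl⟩ | ⟨rfl, rfl⟩
      · exact h hu
      · exact h hu.symm
    exact h1 ((hn _ h2).trans (hn _ h3.symm).symm)
  intro v c hc
  by_cases hv : v = 1
  · have h2 : H.Adj v c.snd := c.adj_snd hc.not_nil
    have hm : c.snd ∈ c.support := c.getVert_mem_support 1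
    exact key c.snd (fun h => h2.ne (hv.trans h.symm)) _ (hc.rotate hm)
  · exact key v hv c hc

lemma P0_acyc (s : Fin 3 × Fin 3 × Fin 3) : (P0 a s).Acyclic := by
  refine acyc3 _ ?_
  rw [SimpleGraph.fromRel_adj]
  rintro ⟨_, ⟨R, hR⟩ | ⟨R, hR⟩⟩ <;> simp at hR

abbrev G3 : GDB σ := ⟨3, fun i b j => b = a ∧ j = i + 1⟩

lemma SP3' (G : GDB σ) (f : Fin G.n → Fin 3) (hf : ∀ i b j, G.E i b j → b = a ∧ f j = f i + 1)
    (u v : Fin G.n) (w : List (σ × Bool)) (h : SP G u w v) :
    (∀ l ∈ w, l.1 = a) ∧ f v = f u + wt w := by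
  induction h with
  | nil u => exact ⟨by simp, by simp [wt]⟩
  | @fwd u v t b w e _ ih =>
    refine ⟨fun l hl => ?_, ?_⟩
    · rcases List.mem_cons.1 hl with rfl | hl
      · exact (hf _ _ _ e).1
      · exact ih.1 l hl
    · show f t = f u + (1 + wt w)
      rw [ih.2, (hf _ _ _ e).2, add_assoc]
  | @bwd u v t b w e _ ih =>
    refine ⟨fun l hl => ?_, ?_⟩
    · rcases List.mem_cons.1 hl with rfl | hl
      · exact (hf _ _ _ e).1
      · exact ih.1 l hl
    · show f t = f u + (2 + wt w)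
      have : ∀ x y : Fin 3, x + y = x + 1 + (2 + y) := by decide
      rw [ih.2, (hf _ _ _ e).2]
      exact this _ _

lemma SP3 (u v : Fin 3) (w : List (σ × Bool)) :
    SP (G3 a) u w v ↔ (∀ l ∈ w, l.1 = a) ∧ v = u + wt w := by
  constructor
  · exact SP3' a (G3 a) id (fun _ _ _ h => h) u v w
  · induction w generalizing u with
    | nil =>
      rintro ⟨_, h⟩
      have : v = u := by simpa [wt] using h
      subst this
      exact SP.nil (G := G3 a) v
    | cons l w ih =>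
      rintro ⟨h1, h2⟩
      obtain ⟨b, s⟩ := l
      have hb : b = a := h1 (b, s) List.mem_cons_self
      have h3 : ∀ l ∈ w, l.1 = a := fun l hl => h1 l (List.mem_cons_of_mem _ hl)
      cases s
      · refine SP.bwd (G := G3 a) (v := u + 2) ⟨hb, ?_⟩ (ih (u + 2) ⟨h3, ?_⟩)
        · have : ∀ x : Fin 3, x = x + 2 + 1 := by decide
          exact this u
        · rw [h2, add_assoc]; rfl
      · refine SP.fwd (G := G3 a) (v := u + 1) ⟨hb, rfl⟩ (ih (u + 1) ⟨h3, ?_⟩)
        rw [h2, add_assoc]; rfl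

lemma J3 (r u v : Fin 3) : J a (G3 a) r u v ↔ v = u + r := by
  constructor
  · rintro ⟨w, hw, h⟩
    rw [((SP3 a u v w).1 h).2, hw.2]
  · intro h
    have : ∃ w, w ∈ Cl a r := by
      fin_cases r
      · exact ⟨[], by simp, rfl⟩
      · exact ⟨_, p_le a rfl⟩
      · exact ⟨_, q_le a rfl⟩
    obtain ⟨w, hw⟩ := this
    exact ⟨w, hw, (SP3 a u v w).2 ⟨hw.1, by rw [hw.2, h]⟩⟩

lemma Q3 (x : Fin 3 → Fin 3) : x ∈ (Q0 a).ans (G3 a) ↔ x 0 ≠ x 1 ∧ x 1 ≠ x 2 ∧ x 2 ≠ x 0 := by
  have h := Q0_ans a (G3 a) x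
  have e : ∀ u v : Fin 3, (∃ r, r ≠ 0 ∧ J a (G3 a) r u v) ↔ u ≠ v := by
    intro u v
    simp only [J3]
    revert u v; decide
  rw [h]
  exact and_congr (e _ _) (and_congr (e _ _) (e _ _))

end

/-- Three walks in a forest, each avoiding one colour. -/
lemma forest {V : Type} (H : SimpleGraph V) (hH : H.IsAcyclic) (D : V → Fin 3) (x y z : V)
    (hx : D x = 0) (hz : D z = 1) (p1 : H.Walk x y) (p2 : H.Walk y z) (p3 : H.Walk x z)
    (h1 : ∀ v ∈ p1.support, D v ≠ 1) (h2 : ∀ v ∈ p2.support, D v ≠ 0)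
    (h3 : ∀ v ∈ p3.support, D v ≠ 2) : False := by
  classical
  have e : p3.toPath = (p1.append p2).toPath := (hH.subsingleton_path _ _).elim _ _
  have key : ∀ (u v : V) (c : H.Walk u v), (∀ d ∈ c.darts, D d.fst = D d.snd) → D u = D v := by
    intro u v c
    induction c with
    | nil => intro _; rfl
    | cons h c ih =>
      intro hd
      have a1 := hd ⟨(_, _), h⟩ (by simp)
      exact a1.trans (ih fun d hd' => hd d (by simp [hd']))
  have := key x z p3.bypass (by
    intro d hd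
    have he : d.edge ∈ p3.bypass.edges := List.mem_map_of_mem hd
    have hs1 : d.fst ∈ p3.support :=
      p3.support_bypass_subset_support (SimpleGraph.Walk.dart_fst_mem_support_of_mem_darts _ hd)
    have hs2 : d.snd ∈ p3.support :=
      p3.support_bypass_subset_support (SimpleGraph.Walk.dart_snd_mem_support_of_mem_darts _ hd)
    have e' : p3.bypass = (p1.append p2).bypass := congrArg Subtype.val e
    rw [e'] at he
    have he2 := (p1.append p2).edges_bypass_subset_edges he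
    rw [SimpleGraph.Walk.edges_append, List.mem_append] at he2
    have b1 := h3 _ hs1
    have b2 := h3 _ hs2
    rcases he2 with h | h
    · have c1 := h1 _ (p1.fst_mem_support_of_mem_edges h)
      have c2 := h1 _ (p1.snd_mem_support_of_mem_edges h)
      revert b1 b2 c1 c2
      generalize D d.fst = s; generalize D d.snd = t; revert s t; decide
    · have c1 := h2 _ (p2.fst_mem_support_of_mem_edges h)
      have c2 := h2 _ (p2.snd_mem_support_of_mem_edges h)
      revert b1 b2 c1 c2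
      generalize D d.fst = s; generalize D d.snd = t; revert s t; decide)
  rw [hx, hz] at this
  exact absurd this (by decide)

lemma mix {σ : Type} (a : σ) (P : C2 σ 3) (h1 h2 : Fin P.nv → Fin 3)
    (s1 : ∀ t ∈ P.atoms, ∃ w ∈ t.2.1.matches', SP (G3 a) (h1 t.1) w (h1 t.2.2))
    (s2 : ∀ t ∈ P.atoms, ∃ w ∈ t.2.1.matches', SP (G3 a) (h2 t.1) w (h2 t.2.2))
    (c : Fin 3) (u v : Fin P.nv) (hu : h1 u - h2 u ≠ c)
    (hne : ∀ h : Fin P.nv → Fin 3,
      (∀ t ∈ P.atoms, ∃ w ∈ t.2.1.matches', SP (G3 a) (h t.1) w (h t.2.2)) → h u ≠ h v)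
    (huv : h1 u = h2 v + c) :
    ∃ w : (SimpleGraph.fromRel (fun u v : Fin P.nv => ∃ R, (u, R, v) ∈ P.atoms)).Walk u v,
      ∀ z ∈ w.support, h1 z - h2 z ≠ c := by
  classical
  set H := SimpleGraph.fromRel (fun u v : Fin P.nv => ∃ R, (u, R, v) ∈ P.atoms) with hH
  by_contra hcon
  set U : Fin P.nv → Prop := fun v => ∃ w : H.Walk u v, ∀ z ∈ w.support, h1 z - h2 z ≠ c with hU
  have hcl : ∀ y z, U y → H.Adj y z → ¬ U z → h2 z + c = h1 z := by
    rintro y z ⟨w, hw⟩ hadj hz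
    by_contra hzc
    apply hz
    refine ⟨w.concat hadj, fun t ht => ?_⟩
    rw [SimpleGraph.Walk.support_concat, List.mem_append,
      List.mem_singleton] at ht
    rcases ht with ht | rfl
    · exact hw t ht
    · intro h
      apply hzc
      rw [← h]; abel
  have hUu : U u := ⟨SimpleGraph.Walk.nil, by simpa using hu⟩
  refine hne (fun z => if U z then h1 z else h2 z + c) ?_ ?_
  · rintro ⟨y, R, z⟩ ht
    have t1 := s1 _ ht
    have t2 : ∃ w ∈ R.matches', SP (G3 a) (h2 y + c) w (h2 z + c) := by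
      obtain ⟨w, hw, hs⟩ := s2 _ ht
      obtain ⟨b1, b2⟩ := (SP3 a _ _ w).1 hs
      refine ⟨w, hw, (SP3 a _ _ w).2 ⟨b1, ?_⟩⟩
      have b3 : h2 z = h2 y + wt w := b2
      rw [b3]; abel
    by_cases hy : U y <;> by_cases hz : U z
    · simp only [if_pos hy, if_pos hz]; exact t1
    · simp only [if_pos hy, if_neg hz]
      have hadj : H.Adj y z := by
        rw [hH, SimpleGraph.fromRel_adj]
        exact ⟨fun h => hz (h ▸ hy), Or.inl ⟨R, ht⟩⟩
      rw [hcl y z hy hadj hz]; exact t1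
    · simp only [if_neg hy, if_pos hz]
      have hadj : H.Adj z y := by
        rw [hH, SimpleGraph.fromRel_adj]
        exact ⟨fun h => hy (h ▸ hz), Or.inr ⟨R, ht⟩⟩
      rw [hcl z y hz hadj hy]; exact t1
    · simp only [if_neg hy, if_neg hz]; exact t2
  · have hv : ¬ U v := hcon
    simp only [if_pos hUu, if_neg hv]
    exact huv

theorem result (σ : Type) [Fintype σ] (a : σ) : ∃ (k : ℕ) (Q : C2 σ k),
    Function.Injective Q.free ∧
    (∃ U : List (C2 σ k), (∀ P ∈ U, Function.Injective P.free ∧ P.Acyclic) ∧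
      ∀ G : GDB σ, Q.ans G = {x | ∃ P ∈ U, x ∈ P.ans G}) ∧
    ∀ P : C2 σ k, P.Acyclic → ¬ ∀ G : GDB σ, Q.ans G = P.ans G := by
  refine ⟨3, Q0 a, Function.injective_id, ⟨[(1,1,1),(1,1,2),(1,2,1),(1,2,2),(2,1,1),(2,1,2),
    (2,2,1),(2,2,2)].map (P0 a), ?_, ?_⟩, ?_⟩
  · intro P hP
    obtain ⟨s, _, rfl⟩ := List.mem_map.1 hP
    exact ⟨Function.injective_id, P0_acyc a s⟩
  · intro G
    ext x
    rw [Q0_ans]
    constructor
    · rintro ⟨⟨r1, n1, j1⟩, ⟨r2, n2, j2⟩, ⟨r3, n3, j3⟩⟩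
      refine ⟨P0 a (r1, r2, r3), List.mem_map_of_mem ?_, (P0_ans a _ G x).2
        ⟨j1, j2, J_trans a (J_trans a j1 j2) j3⟩⟩
      revert n1 n2 n3; generalize r1 = s1; generalize r2 = s2; generalize r3 = s3
      revert s1 s2 s3; decide
    · rintro ⟨P, hP, hx⟩
      obtain ⟨s, hs, rfl⟩ := List.mem_map.1 hP
      obtain ⟨j1, j2, j3⟩ := (P0_ans a s G x).1 hx
      have hs' : s.1 ≠ 0 ∧ s.2.1 ≠ 0 ∧ -(s.1 + s.2.1) + (s.1 + s.2.1 + s.2.2) ≠ 0 := by
        revert hs; generalize s = s'; revert s'; decide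
      exact ⟨⟨_, hs'.1, j1⟩, ⟨_, hs'.2.1, j2⟩,
        ⟨_, hs'.2.2, J_trans a (J_symm a (J_trans a j1 j2)) j3⟩⟩
  · intro P hP hEq
    have hE := hEq (G3 a)
    have m1 : (![0, 1, 2] : Fin 3 → Fin 3) ∈ P.ans (G3 a) := by
      rw [← hE]; exact (Q3 a _).2 (by decide)
    have m2 : (![0, 2, 1] : Fin 3 → Fin 3) ∈ P.ans (G3 a) := by
      rw [← hE]; exact (Q3 a _).2 (by decide)
    obtain ⟨h1, f1, s1⟩ := m1
    obtain ⟨h2, f2, s2⟩ := m2
    have hall : ∀ h : Fin P.nv → Fin 3,
        (∀ t ∈ P.atoms, ∃ w ∈ t.2.1.matches', SP (G3 a) (h t.1) w (h t.2.2)) →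
        h (P.free 0) ≠ h (P.free 1) ∧ h (P.free 1) ≠ h (P.free 2) ∧
          h (P.free 2) ≠ h (P.free 0) := by
      intro h hs
      have : (fun i => h (P.free i)) ∈ P.ans (G3 a) := ⟨h, fun _ => rfl, hs⟩
      rw [← hE] at this
      exact (Q3 a _).1 this
    have a0 : h1 (P.free 0) = (0 : Fin 3) := f1 0
    have a1 : h1 (P.free 1) = (1 : Fin 3) := f1 1
    have a2 : h1 (P.free 2) = (2 : Fin 3) := f1 2
    have b0 : h2 (P.free 0) = (0 : Fin 3) := f2 0
    have b1 : h2 (P.free 1) = (2 : Fin 3) := f2 1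
    have b2 : h2 (P.free 2) = (1 : Fin 3) := f2 2
    obtain ⟨p1, q1⟩ := mix a P h1 h2 s1 s2 1 (P.free 0) (P.free 1) (by rw [a0, b0]; decide)
      (fun h hs => (hall h hs).1) (by rw [a0, b1]; decide)
    obtain ⟨p2, q2⟩ := mix a P h1 h2 s1 s2 0 (P.free 1) (P.free 2) (by rw [a1, b1]; decide)
      (fun h hs => (hall h hs).2.1) (by rw [a1, b2]; decide)
    obtain ⟨p3, q3⟩ := mix a P h1 h2 s1 s2 2 (P.free 0) (P.free 2) (by rw [a0, b0]; decide)
      (fun h hs => (hall h hs).2.2.symm) (by rw [a0, b2]; decide)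
    have fin : ∀ g1 g2 : Fin P.nv → Fin 3, g1 (P.free 0) = 0 → g2 (P.free 0) = 0 →
        g1 (P.free 2) = 2 → g2 (P.free 2) = 1 → (∀ z ∈ p1.support, g1 z - g2 z ≠ 1) →
        (∀ z ∈ p2.support, g1 z - g2 z ≠ 0) → (∀ z ∈ p3.support, g1 z - g2 z ≠ 2) → False := by
      intro g1 g2 c0 d0 c2 d2 r1 r2 r3
      exact forest _ hP (fun z => g1 z - g2 z) _ _ _ (by simp only [c0, d0]; decide)
        (by simp only [c2, d2]; decide) p1 p2 p3 r1 r2 r3
    exact fin h1 h2 a0 b0 a2 b2 q1 q2 q3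

end Pool.Agent.Results.MP_968ae6_lc.Union
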